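import Pool.Agent.TT45.Reg3
import Pool.Agent.PH43.Small2
import Pool.Agent.NL25.Near
import Pool.Agent.NL25.Real2
import Pool.Agent.NL48.Cen
import Pool.Agent.GE63.Ent
import Pool.Agent.HB45.Uni

set_option autoImplicit false

/-!
# TT45/Fin: posets without a chain of more than `c n / log n` elements are unimodal
-/

open Polynomial

namespace Pool.TT45

open Pool.HB45 Pool.HM63 Pool.PH43 Pool.SC25 Pool.SC45 Pool.NL25

theorem sqrt_small (δ : ℝ) (hδ : 0 < δ) : ∃ N0 : ℕ, 3 ≤ N0 ∧ ∀ N : ℕ, N0 ≤ N →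
    Real.sqrt (((N : ℝ) + 1) * Real.log (N + 1)) ≤ δ * N := by
  have h1 := Real.isLittleO_log_id_atTop.def (show (0 : ℝ) < δ ^ 2 / 4 by positivity)
  rw [Filter.eventually_atTop] at h1
  obtain ⟨X, hX⟩ := h1
  obtain ⟨N1, hN1⟩ := exists_nat_ge X
  refine ⟨max N1 3, le_max_right _ _, fun N hN => ?_⟩
  have g1 : N1 ≤ N := (le_max_left _ _).trans hN
  have g2 : 3 ≤ N := (le_max_right _ _).trans hN
  have g1' : (N1 : ℝ) ≤ N := by exact_mod_cast g1
  have g2' : (3 : ℝ) ≤ N := by exact_mod_cast g2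
  have h2 := hX ((N : ℝ) + 1) (by linarith)
  rw [Real.norm_eq_abs, id, Real.norm_eq_abs, abs_of_nonneg (Real.log_nonneg (by linarith)),
    abs_of_nonneg (by linarith)] at h2
  refine Real.sqrt_le_iff.2 ⟨by positivity, ?_⟩
  calc ((N : ℝ) + 1) * Real.log (N + 1) ≤ (N + 1) * (δ ^ 2 / 4 * (N + 1)) :=
        mul_le_mul_of_nonneg_left h2 (by linarith)
    _ = δ ^ 2 * ((N + 1) / 2) ^ 2 := by ring
    _ ≤ δ ^ 2 * (N : ℝ) ^ 2 := by
        refine mul_le_mul_of_nonneg_left ?_ (by positivity)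
        refine pow_le_pow_left₀ (by positivity) ?_ 2
        linarith
    _ = (δ * N) ^ 2 := by ring

/-- increasing start, from local steps -/
theorem mono_of_steps (w : ℕ → ℕ) (p : ℕ → Prop) (hp : ∀ j, p (j + 1) → p j)
    (hs : ∀ j, p j → (∀ i ≤ j, w i ≤ w j) → w j ≤ w (j + 1)) (j : ℕ) (hj : p j) :
    w j ≤ w (j + 1) := by
  have hdown : ∀ d i, p (i + d) → p i := by
    intro d
    induction d with
    | zero => intro i h; exact h
    | succ d ih => intro i h; exact ih i (hp _ h)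
  induction j using Nat.strong_induction_on with
  | _ j ih =>
    refine hs j hj fun i hi => ?_
    have hmono : ∀ d, i + d ≤ j → w i ≤ w (i + d) := by
      intro d
      induction d with
      | zero => intro _; exact le_rfl
      | succ d ihd =>
        intro hd
        refine (ihd (by omega)).trans ?_
        refine ih (i + d) (by omega) ?_
        refine hdown (j - (i + d)) (i + d) ?_
        rwa [Nat.add_sub_cancel' (by omega)]
    have := hmono (j - i) (by omega)
    rwa [Nat.add_sub_cancel' hi] at this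

/-- decreasing end, from local steps; `M` = a place from where on the decrease is known -/
theorem anti_of_steps (w : ℕ → ℕ) (q : ℕ → Prop) (hq : ∀ j, q j → q (j + 1)) (M : ℕ)
    (hM : ∀ j, M ≤ j → w (j + 1) ≤ w j)
    (hs : ∀ j, j < M → q j → (∀ i, j + 1 ≤ i → w i ≤ w (j + 1)) → w (j + 1) ≤ w j) (j : ℕ)
    (hj : q j) : w (j + 1) ≤ w j := by
  have key : ∀ d j, q j → M ≤ j + d → w (j + 1) ≤ w j := by
    intro d
    induction d with
    | zero => intro j _ h; exact hM j h
    | succ d ih =>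
      intro j hj hd
      rcases Nat.lt_or_ge j M with h | h
      · refine hs j h hj fun i hi => ?_
        have hup : ∀ k, q (j + 1 + k) := by
          intro k
          induction k with
          | zero => exact hq j hj
          | succ k ihk => exact hq _ ihk
        have hmono : ∀ k, w (j + 1 + k) ≤ w (j + 1) := by
          intro k
          induction k with
          | zero => exact le_rfl
          | succ k ihk => exact (ih (j + 1 + k) (hup k) (by omega)).trans ihk
        have := hmono (i - (j + 1))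
        rwa [Nat.add_sub_cancel' hi] at this
      · exact hM j h
  exact key M j hj (by omega)

/-- THE CORE, with the second half as a hypothesis. -/
theorem sub_core : ∃ c : ℝ, 0 < c ∧ ∃ N0 : ℕ, ∀ N ≥ N0, ∀ h : ℕ, 1 ≤ h →
    (h : ℝ) * Real.log N ≤ c * N → ∀ (Q : Rel (N + 1)) (κ lab : Fin (N + 1) → ℕ),
    Lev h Q κ → Nat' Q lab → Tr Q → (∀ j, N ≤ 2 * j → w Q lab (j + 1) ≤ w Q lab j) →
    ∃ m : ℕ, ∀ k : ℕ, (k < m → w Q lab k ≤ w Q lab (k + 1)) ∧
      (m ≤ k → w Q lab (k + 1) ≤ w Q lab k) := by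
  obtain ⟨K0, hK0⟩ := main_regime3
  obtain ⟨K, hKd⟩ : ∃ K : ℝ, K = max K0 2 := ⟨_, rfl⟩
  have hKK0 : K0 ≤ K := by rw [hKd]; exact le_max_left _ _
  have hK2 : 2 ≤ K := by rw [hKd]; exact le_max_right _ _
  have hK1 : 1 ≤ K := by linarith
  have hK := hK0 K hKK0
  obtain ⟨k, hkd⟩ : ∃ k : ℝ, k = 1 / 10 ^ 12 / 28 := ⟨_, rfl⟩
  have hk0 : 0 < k := by rw [hkd]; norm_num
  have hk1 : k ≤ 1 / 4 := by rw [hkd]; norm_num
  obtain ⟨c1, hc1, s0, hs0, N1, hRE⟩ := real_estA (1 / 10 ^ 12) k (by norm_num) hk0 (by rw [hkd])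
  obtain ⟨c2, hc2, c5, hc5, N2, hL⟩ := left_near s0 hs0
  obtain ⟨c3, hc3, c6, hc6, N3, hR⟩ := right_near s0 hs0
  obtain ⟨c4, hc4, N4, hC⟩ := Pool.NL48.center_mid 200 (by norm_num)
  obtain ⟨δ, hδd⟩ : ∃ δ : ℝ, δ = min (c5 / (2 * K)) (min c6 (1 / 1000)) := ⟨_, rfl⟩
  have hδ0 : 0 < δ := by
    rw [hδd]
    refine lt_min (by positivity) (lt_min hc6 (by norm_num))
  have hδ1 : δ ≤ c5 / (2 * K) := by rw [hδd]; exact min_le_left _ _
  have hδ2 : δ ≤ c6 := by rw [hδd]; exact (min_le_right _ _).trans (min_le_left _ _)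
  have hδ3 : δ ≤ 1 / 1000 := by rw [hδd]; exact (min_le_right _ _).trans (min_le_right _ _)
  obtain ⟨N5, hN53, hN5⟩ := sqrt_small δ hδ0
  obtain ⟨N6, hN6⟩ := exists_nat_ge (1000 / δ)
  obtain ⟨c, hcd⟩ : ∃ c : ℝ, c = min (min c1 (min c2 (min c3 c4))) (min (k ^ 2) (min δ (1 / (8 * K)))) :=
    ⟨_, rfl⟩
  have hc0 : 0 < c := by
    rw [hcd]
    refine lt_min (lt_min hc1 (lt_min hc2 (lt_min hc3 hc4))) (lt_min (by positivity)
      (lt_min hδ0 (by positivity)))
  have e1 : c ≤ c1 := by rw [hcd]; exact (min_le_left _ _).trans (min_le_left _ _)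
  have e2 : c ≤ c2 := by
    rw [hcd]; exact (min_le_left _ _).trans ((min_le_right _ _).trans (min_le_left _ _))
  have e3 : c ≤ c3 := by
    rw [hcd]
    exact (min_le_left _ _).trans ((min_le_right _ _).trans ((min_le_right _ _).trans
      (min_le_left _ _)))
  have e4 : c ≤ c4 := by
    rw [hcd]
    exact (min_le_left _ _).trans ((min_le_right _ _).trans ((min_le_right _ _).trans
      (min_le_right _ _)))
  have e5 : c ≤ k ^ 2 := by rw [hcd]; exact (min_le_right _ _).trans (min_le_left _ _)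
  have e6 : c ≤ δ := by
    rw [hcd]; exact (min_le_right _ _).trans ((min_le_right _ _).trans (min_le_left _ _))
  have e7 : c ≤ 1 / (8 * K) := by
    rw [hcd]; exact (min_le_right _ _).trans ((min_le_right _ _).trans (min_le_right _ _))
  refine ⟨c, hc0, max (max N1 (max N2 (max N3 N4))) (max N5 N6),
    fun N hN h hh hhN Q κ lab hκ hn hQ hup => ?_⟩
  have g1 : N1 ≤ N := (le_max_left _ _).trans ((le_max_left _ _).trans hN)
  have g2 : N2 ≤ N := (le_max_left _ _).trans ((le_max_right _ _).trans ((le_max_left _ _).trans hN))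
  have g3 : N3 ≤ N := (le_max_left _ _).trans ((le_max_right _ _).trans ((le_max_right _ _).trans
    ((le_max_left _ _).trans hN)))
  have g4 : N4 ≤ N := (le_max_right _ _).trans ((le_max_right _ _).trans ((le_max_right _ _).trans
    ((le_max_left _ _).trans hN)))
  have g5 : N5 ≤ N := (le_max_left _ _).trans ((le_max_right _ _).trans hN)
  have g6 : N6 ≤ N := (le_max_right _ _).trans ((le_max_right _ _).trans hN)
  have hN3 : 3 ≤ N := hN53.trans g5
  have hN3' : (3 : ℝ) ≤ N := by exact_mod_cast hN3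
  have hN0 : (0 : ℝ) < N := by linarith
  have hN6' : 1000 ≤ δ * N := by
    have h1 : 1000 / δ ≤ N := hN6.trans (by exact_mod_cast g6)
    rw [div_le_iff₀ hδ0] at h1
    linarith
  have hh' : (1 : ℝ) ≤ h := by exact_mod_cast hh
  have hlog : 1 ≤ Real.log N := one_le_log hN3'
  have hhc : (h : ℝ) ≤ c * N := by
    have : (h : ℝ) * 1 ≤ h * Real.log N := mul_le_mul_of_nonneg_left hlog (by linarith)
    linarith
  have hcN : ∀ x : ℝ, c ≤ x → (h : ℝ) ≤ x * N := fun x hx =>
    hhc.trans (mul_le_mul_of_nonneg_right hx hN0.le)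
  have hsq := hN5 N g5
  have hsq' : Real.sqrt (N * Real.log N) ≤ δ * N := by
    refine le_trans (Real.sqrt_le_sqrt ?_) hsq
    refine mul_le_mul (by linarith) (Real.log_le_log hN0 (by linarith)) (by linarith) (by linarith)
  have hsq0 : 0 ≤ Real.sqrt (N * Real.log N) := Real.sqrt_nonneg _
  have hsq1 : 0 ≤ Real.sqrt (((N : ℝ) + 1) * Real.log (N + 1)) := Real.sqrt_nonneg _
  obtain ⟨G, hGd⟩ : ∃ G : ℝ, G = GG Q := ⟨_, rfl⟩
  have hG0 : 0 ≤ G := by rw [hGd]; exact GG_nonneg Q
  have hGh : G ≤ h := by rw [hGd]; exact GG_le hκ hn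
  have hGk : GG Q ≤ k ^ 2 * N := by
    rw [← hGd]
    exact hGh.trans (hcN _ e5)
  have hre := hRE N g1 h Q κ lab hh (hcN _ e1) hκ hn hQ
    (fun s hs => Pool.GE63.adj_mean hn k s hk0 hk1 hGk hs)
  have hleft := hL N g2 h Q κ lab hh (hcN _ e2) hκ hn hre
  have hright := hR N g3 h Q κ lab hh (hcN _ e3) hκ hn hre
  have hcen := hC N g4 h hh (hhN.trans (mul_le_mul_of_nonneg_right e4 hN0.le)) Q κ lab hκ hn
  rw [← hGd] at hleft hright
  have hhδ : (h : ℝ) ≤ δ * N := hcN _ e6
  -- the window of `K (h + √)` is small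
  have hKw : K * (h + Real.sqrt (((N : ℝ) + 1) * Real.log (N + 1))) ≤ c5 * N := by
    have h1 : (h : ℝ) + Real.sqrt (((N : ℝ) + 1) * Real.log (N + 1)) ≤ 2 * (δ * N) := by linarith
    have h2 : K * (2 * (δ * N)) ≤ c5 * N := by
      have h3 : δ * (2 * K) ≤ c5 := by rwa [le_div_iff₀ (by positivity)] at hδ1
      calc K * (2 * (δ * N)) = δ * (2 * K) * N := by ring
        _ ≤ c5 * N := mul_le_mul_of_nonneg_right h3 hN0.le
    exact (mul_le_mul_of_nonneg_left h1 (by linarith)).trans h2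
  have hlog3 : Real.log ((N : ℝ) + 3) ≤ 2 * Real.log N := by
    have h1 : Real.log ((N : ℝ) + 3) ≤ Real.log ((N : ℝ) ^ 2) :=
      Real.log_le_log (by linarith) (by nlinarith)
    rw [Real.log_pow] at h1
    exact_mod_cast h1
  have hlog30 : 0 ≤ Real.log ((N : ℝ) + 3) := Real.log_nonneg (by linarith)
  have h8 : 8 * K * (h * Real.log N) ≤ N := by
    have h1 : 8 * K * (h * Real.log N) ≤ 8 * K * (1 / (8 * K) * N) := by
      refine mul_le_mul_of_nonneg_left (hhN.trans (mul_le_mul_of_nonneg_right e7 hN0.le))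
        (by positivity)
    have h2 : 8 * K * (1 / (8 * K) * (N : ℝ)) = N := by field_simp
    linarith
  have h9 : 4 * (K * h) * Real.log ((N : ℝ) + 3) ≤ N + 1 := by
    have h1 : 4 * (K * h) * Real.log ((N : ℝ) + 3) ≤ 4 * (K * h) * (2 * Real.log N) :=
      mul_le_mul_of_nonneg_left hlog3 (by positivity)
    have h2 : 4 * (K * h) * (2 * Real.log N) = 8 * K * (h * Real.log N) := by ring
    linarith
  have hleftall : ∀ j : ℕ, (j : ℝ) ≤ (N - G) / 2 - 100 * Real.sqrt (N * Real.log N) →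
      w Q lab j ≤ w Q lab (j + 1) := by
    refine mono_of_steps (w Q lab)
      (fun j => (j : ℝ) ≤ (N - G) / 2 - 100 * Real.sqrt (N * Real.log N)) ?_ ?_
    · intro j hj
      push_cast at hj
      linarith
    · intro j hj hinc
      by_cases hjK : (j : ℝ) < K * h
      · refine small2 (h := h) hκ hn ?_ ?_
        · have h1 : 8 * (h : ℝ) * Real.log ((N : ℝ) + 3) ≤ 4 * (K * h) * Real.log ((N : ℝ) + 3) :=
            mul_le_mul_of_nonneg_right (by nlinarith) hlog30
          linarith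
        · have h1 : 4 * (j : ℝ) * Real.log ((N : ℝ) + 3) ≤ 4 * (K * h) * Real.log ((N : ℝ) + 3) :=
            mul_le_mul_of_nonneg_right (by linarith) hlog30
          linarith
      · push Not at hjK
        by_cases hj2 : (j : ℝ) ≤ ((N : ℝ) + 1) / 2 -
            K * (h + Real.sqrt ((N + 1) * Real.log (N + 1)))
        · exact hK N h j Q κ lab hh (by omega) hκ hn hjK hj2 hinc
        · push Not at hj2
          refine hleft j (by linarith) ?_ hinc
          linarith
  have hrightall : ∀ j : ℕ, (N - G) / 2 + 100 * Real.sqrt (N * Real.log N) ≤ (j : ℝ) + 1 →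
      w Q lab (j + 1) ≤ w Q lab j := by
    refine anti_of_steps (w Q lab)
      (fun j => (N - G) / 2 + 100 * Real.sqrt (N * Real.log N) ≤ (j : ℝ) + 1) ?_ N ?_ ?_
    · intro j hj
      push_cast
      linarith
    · intro j hj
      exact hup j (by omega)
    · intro j _ hj hdec
      by_cases h2 : N ≤ 2 * j
      · exact hup j h2
      · have h3 : (2 * (j : ℝ)) < N := by exact_mod_cast not_le.1 h2
        refine hright j (by linarith) ?_ hdec
        have h4 : (h : ℝ) / 2 + 1 ≤ c6 * N := by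
          have h5 : δ * N ≤ c6 * N := mul_le_mul_of_nonneg_right hδ2 hN0.le
          linarith
        linarith
  refine combine (w Q lab)
    (fun j => (j : ℝ) ≤ (N - G) / 2 - 100 * Real.sqrt (N * Real.log N))
    (fun j => (N - G) / 2 + 100 * Real.sqrt (N * Real.log N) ≤ (j : ℝ) + 1) hleftall ?_ ?_ ?_
    hrightall ?_
  · intro j hj hj'
    push Not at hj hj'
    refine hcen j ?_ ?_
    · by_contra h0
      have h1 : j = 0 := by omega
      rw [h1] at hj
      push_cast at hj
      have h2 : δ * N ≤ 1 / 1000 * N := mul_le_mul_of_nonneg_right hδ3 hN0.le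
      linarith
    · have hGG : Pool.NL48.Gm Q = G := by rw [hGd]; rfl
      rw [hGG, abs_le]
      constructor <;> linarith
  · intro j hj
    push_cast at hj
    linarith
  · intro j hj
    push_cast
    linarith
  · obtain ⟨j, hj⟩ := exists_nat_ge ((N - G) / 2 + 100 * Real.sqrt (N * Real.log N))
    exact ⟨j, by linarith⟩

end Pool.TT45
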