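import Pool.Agent.TT45.Fin

set_option autoImplicit false

/-!
# TT45/FinA: SUBLINEAR CHAINS for labelled posets
-/

open Polynomial

namespace Pool.TT45

open Pool.HB45 Pool.HM63 Pool.PH43 Pool.SC25

/-- SUBLINEAR CHAINS. -/
theorem sublinear_chains : ∃ c : ℝ, 0 < c ∧ ∀ n h : ℕ, 2 ≤ n → (h : ℝ) * Real.log n ≤ c * n →
    ∀ (α : Type) [Fintype α] [PartialOrder α] (f : α ≃ Fin n), (∀ x y : α, x < y → f x < f y) →
      (∀ s : Finset α, IsChain (· ≤ ·) (s : Set α) → s.card ≤ h) →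
      ∃ m : ℕ, ∀ k : ℕ, (k < m → dn f k ≤ dn f (k + 1)) ∧ (m ≤ k → dn f (k + 1) ≤ dn f k) := by
  obtain ⟨c, hc, N0, hN0⟩ := sub_core
  refine ⟨min (c / 2) (1 / (4 * ((N0 : ℝ) + 3))), by positivity, fun n h hn2 hcn α _ _ f hf hs => ?_⟩
  have hn2' : (2 : ℝ) ≤ n := by exact_mod_cast hn2
  have hne : Nonempty α := ⟨f.symm ⟨0, by omega⟩⟩
  have hh : 1 ≤ h := by
    obtain ⟨a⟩ := hne
    have := hs {a} (by simp)
    rwa [Finset.card_singleton] at this
  have hhr : (1 : ℝ) ≤ h := by exact_mod_cast hh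
  have hlog2 : (1 / 2 : ℝ) ≤ Real.log n := by
    have h1 := Real.log_two_gt_d9
    have h2 := Real.log_le_log (by norm_num) hn2'
    linarith
  have h1 : (h : ℝ) * Real.log n ≤ c / 2 * n :=
    hcn.trans (mul_le_mul_of_nonneg_right (min_le_left _ _) (by linarith))
  have h2 : (h : ℝ) * Real.log n ≤ 1 / (4 * ((N0 : ℝ) + 3)) * n :=
    hcn.trans (mul_le_mul_of_nonneg_right (min_le_right _ _) (by linarith))
  have h3 : (1 : ℝ) / 2 ≤ 1 / (4 * ((N0 : ℝ) + 3)) * n := by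
    have : (1 : ℝ) * (1 / 2) ≤ h * Real.log n := mul_le_mul hhr hlog2 (by norm_num) (by linarith)
    linarith
  have h4 : 2 * ((N0 : ℝ) + 3) ≤ n := by
    have h5 : (0 : ℝ) < 4 * ((N0 : ℝ) + 3) := by positivity
    rw [div_mul_eq_mul_div, one_mul, le_div_iff₀ h5] at h3
    linarith
  obtain ⟨N, rfl⟩ : ∃ N, n = N + 1 := ⟨n - 1, by omega⟩
  push_cast at h1 h4 hn2' hlog2
  have hN0N : N0 ≤ N := by
    have : (N0 : ℝ) ≤ N := by
      have : (0 : ℝ) ≤ N0 := Nat.cast_nonneg _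
      linarith
    exact_mod_cast this
  have hN1 : (1 : ℝ) ≤ N := by linarith
  obtain ⟨κ, hκ⟩ := exists_lev (h := h) f hs
  have hQtr : Pool.SC45.Tr (rel f) := fun a b c hab hbc => lt_trans hab hbc
  have hcN : (h : ℝ) * Real.log N ≤ c * N := by
    have e1 : (h : ℝ) * Real.log N ≤ h * Real.log ((N : ℝ) + 1) :=
      mul_le_mul_of_nonneg_left (Real.log_le_log (by linarith) (by linarith)) (by linarith)
    have e2 : c / 2 * ((N : ℝ) + 1) ≤ c * N := by nlinarith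
    linarith
  have hcard : Fintype.card α = N + 1 := by rw [Fintype.card_congr f, Fintype.card_fin]
  obtain ⟨m, hm⟩ := hN0 N hN0N h hh hcN (rel f) κ (fun a => a.val) hκ (nat_rel f hf) hQtr
    (fun j hj => by
      have := upper (N + 1) hcard f hf j (by omega)
      rwa [dn_eq, dn_eq] at this)
  refine ⟨m, fun k => ?_⟩
  rw [dn_eq, dn_eq]
  exact hm k

end Pool.TT45
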