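import Pool.Agent.TT45.Num2

set_option autoImplicit false

/-!
# TT45/Num3: the tilt and the numerical inequalities, no logarithm (`K h ≤ j ≤ n/2 - K (h + √(n log n))`)

`n = N + 1` as a real number, `K` a large constant.
-/

namespace Pool.TT45

open Pool.SC25

/-- the conditions on the tilt -/
structure Tilt3 (n h j K σ : ℝ) : Prop where
  lo : K * Real.sqrt (Real.log n / n) ≤ σ
  lo2 : K * (h / n) ≤ σ
  hi : σ * h ≤ 4 * n / K
  eq : j = n * mn σ + wx n h σ
  le : wx n h σ * sc σ ^ 2 ≤ n * σ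

/-- what the range of `j` gives -/
theorem base3 {K n h j : ℝ} (hK : 1000 ≤ K) (hn : 3 ≤ n) (hh : 1 ≤ h) (hj1 : K * h ≤ j)
    (hj2 : j ≤ n / 2 - K * (h + Real.sqrt (n * Real.log n))) :
    K * h ≤ n / 4 ∧ 4 * K ^ 2 * Real.log n ≤ n := by
  have hn0 : 0 < n := by linarith
  have hL : 1 ≤ Real.log n := one_le_log hn
  have hu0 : 0 ≤ Real.sqrt (n * Real.log n) := Real.sqrt_nonneg _
  have hK0 : 0 < K := by linarith
  have h1 : 0 ≤ K * Real.sqrt (n * Real.log n) := by positivity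
  have h2 : 0 ≤ K * h := by positivity
  refine ⟨by linarith, ?_⟩
  have h3 : K * Real.sqrt (n * Real.log n) ≤ n / 2 := by linarith
  have h4 : (K * Real.sqrt (n * Real.log n)) ^ 2 ≤ (n / 2) ^ 2 := pow_le_pow_left₀ h1 h3 2
  rw [mul_pow, Real.sq_sqrt (by positivity)] at h4
  have h5 : n * (4 * K ^ 2 * Real.log n) ≤ n * n := by
    calc n * (4 * K ^ 2 * Real.log n) = 4 * (K ^ 2 * (n * Real.log n)) := by ring
      _ ≤ 4 * (n / 2) ^ 2 := by linarith
      _ = n * n := by ring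
  exact le_of_mul_le_mul_left h5 hn0

/-- PROOF. IVT for `σ ↦ n mn σ + wx n h σ` on `[K max (√(log n/n)) (h/n), 4 n/(K h)]`. -/
theorem exists_tilt3 : ∃ K0 : ℝ, ∀ K ≥ K0, ∀ n h j : ℝ, 3 ≤ n → 1 ≤ h → K * h ≤ j →
    j ≤ n / 2 - K * (h + Real.sqrt (n * Real.log n)) → ∃ σ, Tilt3 n h j K σ := by
  refine ⟨1000, fun K hK n h j hn hh hj1 hj2 => ?_⟩
  obtain ⟨hKh, hKL⟩ := base3 hK hn hh hj1 hj2
  have hn0 : 0 < n := by linarith
  have hL : 1 ≤ Real.log n := one_le_log hn
  obtain ⟨L, hLd⟩ : ∃ L, L = Real.log n := ⟨_, rfl⟩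
  rw [← hLd] at hKL hj2 hL
  have hK0 : 0 < K := by linarith
  have hK2 : 1000 * K ≤ K ^ 2 := by nlinarith
  have hh0 : 0 < h := by linarith
  have hKn : 4 * K ^ 2 ≤ n := by nlinarith
  obtain ⟨u, hu⟩ : ∃ u, u = Real.sqrt (n * L) := ⟨_, rfl⟩
  have hu2 : u ^ 2 = n * L := by rw [hu]; exact Real.sq_sqrt (by positivity)
  have hu0 : 0 < u := by rw [hu]; exact Real.sqrt_pos.mpr (by positivity)
  have hq : Real.sqrt (L / n) = u / n := by
    rw [hu]
    have e1 : L / n = (n * L) / n ^ 2 := by field_simp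
    rw [e1, Real.sqrt_div (by positivity), Real.sqrt_sq hn0.le]
  obtain ⟨a, ha⟩ : ∃ a, a = K * max (u / n) (h / n) := ⟨_, rfl⟩
  have ha1 : K * (u / n) ≤ a := by
    rw [ha]; exact mul_le_mul_of_nonneg_left (le_max_left _ _) hK0.le
  have ha2 : K * (h / n) ≤ a := by
    rw [ha]; exact mul_le_mul_of_nonneg_left (le_max_right _ _) hK0.le
  have ha0 : 0 < a := lt_of_lt_of_le (by positivity) ha1
  have han : a ≤ K * ((h + u) / n) := by
    rw [ha]
    apply mul_le_mul_of_nonneg_left _ hK0.le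
    apply max_le
    · apply div_le_div_of_nonneg_right _ hn0.le
      linarith
    · apply div_le_div_of_nonneg_right _ hn0.le
      linarith
  -- `a ≤ 1`
  have hau : K * u ≤ n := by
    have e1 : (K * u) ^ 2 ≤ n ^ 2 := by
      calc (K * u) ^ 2 = n * (K ^ 2 * L) := by rw [mul_pow, hu2]; ring
        _ ≤ n * n := mul_le_mul_of_nonneg_left (by nlinarith [sq_nonneg K]) hn0.le
        _ = n ^ 2 := by ring
    exact (pow_le_pow_iff_left₀ (by positivity) hn0.le two_ne_zero).mp e1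
  have ha3 : a ≤ 1 := by
    rw [ha]
    rcases le_total (u / n) (h / n) with h1 | h1
    · rw [max_eq_right h1, mul_div_assoc', div_le_one hn0]
      linarith
    · rw [max_eq_left h1, mul_div_assoc', div_le_one hn0]
      exact hau
  obtain ⟨b, hb⟩ : ∃ b, b = 4 * n / (K * h) := ⟨_, rfl⟩
  have hbh : b * (K * h) = 4 * n := by
    rw [hb]
    field_simp
  have hb16 : 16 ≤ b := by
    rw [hb, le_div_iff₀ (by positivity)]
    linarith
  have hbh' : b * h = 4 * n / K := by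
    rw [hb]
    field_simp
  have hb0 : 0 < b := by linarith
  have hab : a ≤ b := by linarith
  have hrad : ∀ σ, 0 ≤ σ → σ ≤ b → 3 / 2 * σ * (h + 1) + 2 ≤ 14 * n / K := by
    intro σ h0 h1
    have e1 : σ * (h + 1) ≤ b * (2 * h) := mul_le_mul h1 (by linarith) (by linarith) hb0.le
    have e2 : b * (2 * h) = 8 * n / K := by
      calc b * (2 * h) = 2 * (b * h) := by ring
        _ = 8 * n / K := by rw [hbh']; ring
    have e3 : 2 ≤ 2 * n / K := by
      rw [le_div_iff₀ hK0]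
      nlinarith
    have e4 : 14 * n / K = 3 / 2 * (8 * n / K) + 2 * n / K := by ring
    rw [e4]
    linarith
  have hcont : ContinuousOn (fun σ => n * mn σ + wx n h σ) (Set.Icc a b) := by
    apply ContinuousOn.add
    · exact continuousOn_const.mul (mn_continuousOn.mono fun x hx => lt_of_lt_of_le ha0 hx.1)
    · exact (wx_continuous n h).continuousOn
  have hfa : j ≤ n * mn a + wx n h a := by
    have h1 := mn_ge ha0
    have h2 := wx_nonneg n h a
    have h3 : n * (1 / 2 - a / 4) ≤ n * mn a := mul_le_mul_of_nonneg_left h1 hn0.le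
    have h4 : n * a ≤ K * (h + u) := by
      have := mul_le_mul_of_nonneg_left han hn0.le
      calc n * a ≤ n * (K * ((h + u) / n)) := this
        _ = K * (h + u) := by field_simp
    rw [← hu] at hj2
    have h5 : 0 ≤ K * (h + u) := by positivity
    nlinarith
  have hfb : n * mn b + wx n h b ≤ j := by
    have h1 : n * mn b ≤ K * h / 4 := by
      calc n * mn b ≤ n * (1 / b) := mul_le_mul_of_nonneg_left (mn_le hb0) hn0.le
        _ = K * h / 4 := by
          rw [hb]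
          field_simp
    have h2 : wx n h b ≤ K * h / 4 := by
      unfold wx
      have hsc : sc b = b := max_eq_right (by linarith)
      rw [hsc, div_le_iff₀ hb0]
      have h3 : Real.sqrt (n * (3 / 2 * b * (h + 1) + 2)) ≤ n / 2 := by
        apply Real.sqrt_le_iff.mpr
        refine ⟨by positivity, ?_⟩
        have e1 := hrad b hb0.le le_rfl
        have e2 : 14 * n / K ≤ n / 4 := by
          rw [div_le_div_iff₀ hK0 (by norm_num)]
          nlinarith
        calc n * (3 / 2 * b * (h + 1) + 2) ≤ n * (n / 4) :=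
              mul_le_mul_of_nonneg_left (by linarith) hn0.le
          _ = (n / 2) ^ 2 := by ring
      have h4 : K * h / 4 * b = n := by
        calc K * h / 4 * b = b * (K * h) / 4 := by ring
          _ = n := by rw [hbh]; ring
      rw [h4]
      linarith
    linarith [mul_pos hK0 hh0]
  obtain ⟨σ, hσ, hσj⟩ := intermediate_value_Icc' hab hcont ⟨hfb, hfa⟩
  have hσ1 : K * (u / n) ≤ σ := ha1.trans hσ.1
  have hσ2 : K * (h / n) ≤ σ := ha2.trans hσ.1
  have hσ0 : 0 < σ := lt_of_lt_of_le ha0 hσ.1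
  refine ⟨σ, ?_, hσ2, ?_, hσj.symm, ?_⟩
  · rw [← hLd, hq]
    exact hσ1
  · rw [← hbh']
    exact mul_le_mul_of_nonneg_right hσ.2 hh0.le
  · have hsc0 := sc_pos' σ
    have key : 4 * sc σ ^ 2 * (3 / 2 * σ * (h + 1) + 2) ≤ n * σ ^ 2 := by
      rcases le_total 1 σ with h1 | h1
      · have hsc : sc σ = σ := max_eq_right h1
        rw [hsc]
        have h2 : 4 * (3 / 2 * σ * (h + 1) + 2) ≤ n := by
          have e1 := hrad σ hσ0.le hσ.2
          have e2 : 14 * n / K ≤ n / 4 := by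
            rw [div_le_div_iff₀ hK0 (by norm_num)]
            nlinarith
          linarith
        have h8 := mul_le_mul_of_nonneg_left h2 (sq_nonneg σ)
        calc 4 * σ ^ 2 * (3 / 2 * σ * (h + 1) + 2) = σ ^ 2 * (4 * (3 / 2 * σ * (h + 1) + 2)) := by
              ring
          _ ≤ σ ^ 2 * n := h8
          _ = n * σ ^ 2 := mul_comm _ _
      · have hsc : sc σ = 1 := max_eq_left h1
        rw [hsc]
        have h3 : 1000 * h ≤ n * σ := by
          have e1 := mul_le_mul_of_nonneg_left hσ2 hn0.le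
          have e2 : n * (K * (h / n)) = K * h := by field_simp
          rw [e2] at e1
          nlinarith
        have h4 : 1000000 ≤ n * σ ^ 2 := by
          have e1 : (K * (u / n)) ^ 2 ≤ σ ^ 2 := pow_le_pow_left₀ (by positivity) hσ1 2
          have e2 : n * (K * (u / n)) ^ 2 = K ^ 2 * L := by
            rw [mul_pow, div_pow, hu2]
            field_simp
          have e3 := mul_le_mul_of_nonneg_left e1 hn0.le
          rw [e2] at e3
          nlinarith
        have h5 : 1000 * h * σ ≤ n * σ ^ 2 := by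
          have := mul_le_mul_of_nonneg_right h3 hσ0.le
          calc 1000 * h * σ ≤ n * σ * σ := this
            _ = n * σ ^ 2 := by ring
        have h6 : σ ≤ h * σ := le_mul_of_one_le_left hσ0.le hh
        have h7 : 4 * 1 ^ 2 * (3 / 2 * σ * (h + 1) + 2) = 6 * (h * σ) + 6 * σ + 8 := by ring
        have h8 : 1000 * h * σ = 1000 * (h * σ) := by ring
        have h9 : 0 ≤ h * σ := by positivity
        rw [h7]
        linarith
    unfold wx
    have e1 : 2 * Real.sqrt (n * (3 / 2 * σ * (h + 1) + 2)) / sc σ * sc σ ^ 2 =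
        2 * sc σ * Real.sqrt (n * (3 / 2 * σ * (h + 1) + 2)) := by
      field_simp
    rw [e1]
    have e2 : Real.sqrt (n * (3 / 2 * σ * (h + 1) + 2)) ≤ n * σ / (2 * sc σ) := by
      apply Real.sqrt_le_iff.mpr
      refine ⟨by positivity, ?_⟩
      rw [div_pow, le_div_iff₀ (by positivity)]
      calc n * (3 / 2 * σ * (h + 1) + 2) * (2 * sc σ) ^ 2 =
            n * (4 * sc σ ^ 2 * (3 / 2 * σ * (h + 1) + 2)) := by ring
        _ ≤ n * (n * σ ^ 2) := mul_le_mul_of_nonneg_left key hn0.le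
        _ = (n * σ) ^ 2 := by ring
    calc 2 * sc σ * Real.sqrt (n * (3 / 2 * σ * (h + 1) + 2)) ≤
          2 * sc σ * (n * σ / (2 * sc σ)) := mul_le_mul_of_nonneg_left e2 (by positivity)
      _ = n * σ := by field_simp

/-- `σ wx ≤ 8 n / √K`, in the form `(σ wx)² K ≤ 64 n²` -/
theorem sig_wx3 {K n h j σ : ℝ} (hK : 1000 ≤ K) (hn : 3 ≤ n) (hh : 1 ≤ h)
    (hKL : 4 * K ^ 2 * Real.log n ≤ n) (hT : Tilt3 n h j K σ) (hσ : 0 < σ) (q : ℝ) (hq : 0 < q)
    (hqK : 64 ≤ q ^ 2 * K) :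
    σ * wx n h σ ≤ q * n := by
  have hL := one_le_log hn
  have hn0 : 0 < n := by linarith
  have hK0 : 0 < K := by linarith
  have hsc0 : 0 < sc σ := sc_pos' σ
  have hKn : 4 * K ^ 2 ≤ n := by
    have : 4 * K ^ 2 * 1 ≤ 4 * K ^ 2 * Real.log n := mul_le_mul_of_nonneg_left hL (by positivity)
    linarith
  have hA : 3 / 2 * σ * (h + 1) + 2 ≤ 14 * n / K := by
    have h1 := hT.hi
    have h2 : σ * (h + 1) ≤ 2 * (σ * h) := by nlinarith
    have e3 : 2 ≤ 2 * n / K := by
      rw [le_div_iff₀ hK0]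
      nlinarith
    have e4 : 14 * n / K = 3 / 2 * (2 * (4 * n / K)) + 2 * n / K := by ring
    rw [e4]
    linarith
  have e1 : Real.sqrt (n * (3 / 2 * σ * (h + 1) + 2)) ≤ q * n / 2 := by
    refine Real.sqrt_le_iff.2 ⟨by positivity, ?_⟩
    have e5 : 14 * n / K ≤ q ^ 2 * n / 4 := by
      rw [div_le_div_iff₀ hK0 (by norm_num)]
      nlinarith
    calc n * (3 / 2 * σ * (h + 1) + 2) ≤ n * (q ^ 2 * n / 4) :=
          mul_le_mul_of_nonneg_left (hA.trans e5) hn0.le
      _ = (q * n / 2) ^ 2 := by ring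
  have e2 : σ / sc σ ≤ 1 := (div_le_one hsc0).2 (le_sc σ)
  have e3 : 0 ≤ Real.sqrt (n * (3 / 2 * σ * (h + 1) + 2)) := Real.sqrt_nonneg _
  calc σ * wx n h σ = σ / sc σ * (2 * Real.sqrt (n * (3 / 2 * σ * (h + 1) + 2))) := by
        unfold wx; ring
    _ ≤ 1 * (2 * (q * n / 2)) := mul_le_mul e2 (by linarith) (by positivity) zero_le_one
    _ = q * n := by ring

theorem num1_3 : ∃ K0 : ℝ, ∀ K ≥ K0, ∀ n h j σ : ℝ, 3 ≤ n → 1 ≤ h →
    K * h ≤ n / 4 → 4 * K ^ 2 * Real.log n ≤ n → Tilt3 n h j K σ →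
    12 * n * (n + 1) * Real.exp (2 * σ * wx n h σ) * Real.exp (σ / 2) *
      Real.exp ((150 + 3 * σ) * (h + 1) + 1 + n / 900 - 7 / 500 * n) ≤ 1 := by
  refine ⟨64000000, fun K hK n h j σ hn hh hKh hKL hT => ?_⟩
  have hL := one_le_log hn
  have hn0 : 0 < n := by linarith
  have hK0 : 0 < K := by linarith
  have hσ : 0 < σ := by
    refine lt_of_lt_of_le ?_ hT.lo
    have : 0 < Real.log n / n := by positivity
    have := Real.sqrt_pos.2 this
    positivity
  have h0 : 1000000 * h ≤ n := by nlinarith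
  have h1 : 1000000 * Real.log n ≤ n := by
    have e1 : (1000000 : ℝ) ≤ 4 * K ^ 2 := by nlinarith
    calc 1000000 * Real.log n ≤ 4 * K ^ 2 * Real.log n :=
          mul_le_mul_of_nonneg_right e1 (by linarith)
      _ ≤ n := hKL
  have hσh : σ * h ≤ n / 1000000 := by
    refine hT.hi.trans ?_
    rw [div_le_div_iff₀ hK0 (by norm_num)]
    nlinarith
  have h8 : (150 + 3 * σ) * (h + 1) + 1 ≤ 301 * h + 6 * (σ * h) := by nlinarith
  have h9 : σ / 2 ≤ σ * h := by nlinarith
  have h10 : σ * wx n h σ ≤ 1 / 1000 * n :=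
    sig_wx3 (by linarith) hn hh hKL hT hσ (1 / 1000) (by norm_num) (by linarith)
  calc 12 * n * (n + 1) * Real.exp (2 * σ * wx n h σ) * Real.exp (σ / 2) *
      Real.exp ((150 + 3 * σ) * (h + 1) + 1 + n / 900 - 7 / 500 * n)
      ≤ Real.exp (5 * Real.log n) * Real.exp (2 * σ * wx n h σ) * Real.exp (σ / 2) *
      Real.exp ((150 + 3 * σ) * (h + 1) + 1 + n / 900 - 7 / 500 * n) := by
        refine mul_le_mul_of_nonneg_right (mul_le_mul_of_nonneg_right (mul_le_mul_of_nonneg_right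
          (poly_le hn) (Real.exp_pos _).le) (Real.exp_pos _).le) (Real.exp_pos _).le
    _ = Real.exp (5 * Real.log n + 2 * σ * wx n h σ + σ / 2 +
        ((150 + 3 * σ) * (h + 1) + 1 + n / 900 - 7 / 500 * n)) := by
        rw [Real.exp_add, Real.exp_add, Real.exp_add]
    _ ≤ 1 := by
        rw [Real.exp_le_one_iff]
        have e1 : 2 * σ * wx n h σ ≤ 2 / 1000 * n := by linarith
        linarith

theorem num2_3 : ∃ K0 : ℝ, ∀ K ≥ K0, ∀ n h j σ : ℝ, 3 ≤ n → 1 ≤ h →
    K * h ≤ n / 4 → 4 * K ^ 2 * Real.log n ≤ n → Tilt3 n h j K σ → n / 21 ≤ j →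
    12 * n * (n + 1) * Real.exp (2 * σ * wx n h σ) * Real.exp (σ / 2) *
      (1 - (1 - 2 * Real.sqrt (Real.exp (-σ)) / (1 + Real.exp (-σ))) * Real.exp (-σ) ^ 2 / 24) ^
        (n / 10 - 2) ≤ 1 := by
  have hc0 := c3_pos
  have hc1 := c3_le
  refine ⟨64000000 / c3 ^ 2, fun K hK n h j σ hn hh hKh hKL hT hj => ?_⟩
  have hL := one_le_log hn
  have hn0 : 0 < n := by linarith
  have hc2 : 0 < c3 ^ 2 := by positivity
  have hcK0 : 64000000 ≤ c3 ^ 2 * K := by
    have h1 : 64000000 / c3 ^ 2 ≤ K := hK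
    rw [div_le_iff₀ hc2] at h1
    linarith
  have hcK : 10000 ≤ c3 ^ 2 * K := by linarith
  have hcc : c3 ^ 2 ≤ c3 := by nlinarith
  have hcK' : 10000 ≤ c3 * K := by
    have hK0 : 0 < K := by
      by_contra hcon
      push Not at hcon
      nlinarith
    have := mul_le_mul_of_nonneg_right hcc hK0.le
    linarith
  have hK1000 : 64000000 ≤ K := by
    have e1 : c3 ^ 2 ≤ 1 := pow_le_one₀ hc0.le hc1
    have e2 : (64000000 : ℝ) ≤ 64000000 / c3 ^ 2 := by
      rw [le_div_iff₀ hc2]; linarith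
    exact e2.trans hK
  have hK0 : 0 < K := by linarith
  have hLn : 0 < Real.log n / n := by positivity
  have hσ : 0 < σ := by
    refine lt_of_lt_of_le ?_ hT.lo
    have := Real.sqrt_pos.2 hLn
    positivity
  -- `n σ² ≥ K² log n`
  have hA : K ^ 2 * Real.log n ≤ n * σ ^ 2 := by
    have e1 : (K * Real.sqrt (Real.log n / n)) ^ 2 ≤ σ ^ 2 :=
      pow_le_pow_left₀ (by positivity) hT.lo 2
    rw [mul_pow, Real.sq_sqrt hLn.le] at e1
    calc K ^ 2 * Real.log n = n * (K ^ 2 * (Real.log n / n)) := by field_simp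
      _ ≤ n * σ ^ 2 := mul_le_mul_of_nonneg_left e1 hn0.le
  -- `n σ ≥ K h`
  have hB : K * h ≤ n * σ := by
    have e1 := mul_le_mul_of_nonneg_left hT.lo2 hn0.le
    have e2 : n * (K * (h / n)) = K * h := by field_simp
    rw [e2] at e1
    exact e1
  have hsc0 : 0 < sc σ := sc_pos' σ
  -- `σ ≤ 27`
  have h27 : σ ≤ 27 := by
    by_contra hcon
    push Not at hcon
    have hw : wx n h σ ≤ n / 1000 := by
      have e0 : 0 ≤ wx n h σ := wx_nonneg n h σ
      have e1 := sig_wx3 (by linarith) hn hh hKL hT hσ (1 / 1000) (by norm_num) (by linarith)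
      have e3 : 27 * wx n h σ ≤ σ * wx n h σ := mul_le_mul_of_nonneg_right hcon.le e0
      linarith
    have h1 := mn_le hσ
    have h2 : n * mn σ ≤ n / 27 := by
      calc n * mn σ ≤ n * (1 / σ) := mul_le_mul_of_nonneg_left h1 hn0.le
        _ ≤ n * (1 / 27) := mul_le_mul_of_nonneg_left
            (one_div_le_one_div_of_le (by norm_num) hcon.le) hn0.le
        _ = n / 27 := by ring
    have h4 := hT.eq
    linarith
  obtain ⟨hq1, hq2⟩ := base_bound hσ h27
  obtain ⟨q, hq⟩ : ∃ q, q = (1 - 2 * Real.sqrt (Real.exp (-σ)) / (1 + Real.exp (-σ))) *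
    Real.exp (-σ) ^ 2 / 24 := ⟨_, rfl⟩
  rw [← hq] at hq1 hq2 ⊢
  have hq0 : 0 ≤ q := le_trans (by positivity) hq1
  have hn220 : 220 ≤ n := by nlinarith
  -- the power
  have hpow : (1 - q) ^ (n / 10 - 2) ≤ Real.exp (-(c3 * n * σ ^ 2)) := by
    have e1 : 1 - q ≤ Real.exp (-q) := by
      have := Real.add_one_le_exp (-q)
      linarith
    have e2 : 0 ≤ n / 10 - 2 := by linarith
    calc (1 - q) ^ (n / 10 - 2) ≤ Real.exp (-q) ^ (n / 10 - 2) :=
          Real.rpow_le_rpow (by linarith) e1 e2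
      _ = Real.exp (-q * (n / 10 - 2)) := by rw [Real.exp_mul]
      _ ≤ Real.exp (-(c3 * n * σ ^ 2)) := by
          apply Real.exp_le_exp.2
          have e3 : n / 11 ≤ n / 10 - 2 := by linarith
          have e4 : 11 * (c3 * σ ^ 2) * (n / 11) ≤ q * (n / 10 - 2) :=
            mul_le_mul hq1 e3 (by positivity) hq0
          linarith
  have hx0 : 0 < n * σ ^ 2 := by positivity
  have h1 : 5 * Real.log n ≤ c3 / 4 * (n * σ ^ 2) := by
    have e1 : 20 ≤ c3 * K ^ 2 := by nlinarith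
    have e2 : 20 * Real.log n ≤ c3 * K ^ 2 * Real.log n := mul_le_mul_of_nonneg_right e1 (by linarith)
    have e3 : c3 * (K ^ 2 * Real.log n) ≤ c3 * (n * σ ^ 2) := mul_le_mul_of_nonneg_left hA hc0.le
    linarith
  have hcB : 10000 ≤ c3 ^ 2 * (n * σ) := by
    have e5 : c3 ^ 2 * (K * h) ≤ c3 ^ 2 * (n * σ) := mul_le_mul_of_nonneg_left hB hc2.le
    have e6 : c3 ^ 2 * K * 1 ≤ c3 ^ 2 * K * h := mul_le_mul_of_nonneg_left hh (by positivity)
    linarith
  have hcB' : 10000 * h ≤ c3 ^ 2 * (n * σ) := by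
    have e5 : c3 ^ 2 * (K * h) ≤ c3 ^ 2 * (n * σ) := mul_le_mul_of_nonneg_left hB hc2.le
    have e6 : 10000 * h ≤ c3 ^ 2 * K * h := mul_le_mul_of_nonneg_right hcK (by linarith)
    linarith
  have h2 : σ / 2 ≤ c3 / 4 * (n * σ ^ 2) := by
    have e1 : 2 ≤ c3 * (n * σ) := by
      have e2 : c3 ^ 2 * (n * σ) ≤ c3 * (n * σ) := mul_le_mul_of_nonneg_right hcc (by positivity)
      linarith
    nlinarith
  have h3 : 2 * σ * wx n h σ ≤ c3 / 4 * (n * σ ^ 2) := by
    have e1 : wx n h σ ≤ 2 * Real.sqrt (n * (3 / 2 * σ * (h + 1) + 2)) := by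
      unfold wx
      exact div_le_self (by positivity) (one_le_sc σ)
    have e2 : Real.sqrt (n * (3 / 2 * σ * (h + 1) + 2)) ≤ c3 / 16 * (n * σ) := by
      refine Real.sqrt_le_iff.2 ⟨by positivity, ?_⟩
      have e3 : 3 / 2 * σ * (h + 1) ≤ 3 * σ * h := by nlinarith
      -- `3 n σ h ≤ (c3/16)² (nσ)² / 2`
      have e4 : 768 * 2 * h ≤ c3 ^ 2 * (n * σ) := by linarith
      have e5 : 2048 ≤ c3 ^ 2 * (n * σ ^ 2) := by
        have e6 : c3 ^ 2 * (K ^ 2 * Real.log n) ≤ c3 ^ 2 * (n * σ ^ 2) :=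
          mul_le_mul_of_nonneg_left hA hc2.le
        have e7 : 10000 * K ≤ c3 ^ 2 * K ^ 2 := by
          calc 10000 * K ≤ c3 ^ 2 * K * K := mul_le_mul_of_nonneg_right hcK (by positivity)
            _ = c3 ^ 2 * K ^ 2 := by ring
        have e8 : c3 ^ 2 * K ^ 2 * 1 ≤ c3 ^ 2 * K ^ 2 * Real.log n :=
          mul_le_mul_of_nonneg_left hL (by positivity)
        nlinarith
      have e6 : n * (3 * σ * h) ≤ (c3 / 16) ^ 2 * (n * σ) ^ 2 / 2 := by
        have : n * σ * (768 * 2 * h) ≤ n * σ * (c3 ^ 2 * (n * σ)) :=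
          mul_le_mul_of_nonneg_left e4 (by positivity)
        nlinarith
      have e7 : n * 2 ≤ (c3 / 16) ^ 2 * (n * σ) ^ 2 / 2 := by
        have : n * 2048 ≤ n * (c3 ^ 2 * (n * σ ^ 2)) := mul_le_mul_of_nonneg_left e5 hn0.le
        nlinarith
      calc n * (3 / 2 * σ * (h + 1) + 2) ≤ n * (3 * σ * h + 2) :=
            mul_le_mul_of_nonneg_left (by linarith) hn0.le
        _ = n * (3 * σ * h) + n * 2 := by ring
        _ ≤ (c3 / 16) ^ 2 * (n * σ) ^ 2 / 2 + (c3 / 16) ^ 2 * (n * σ) ^ 2 / 2 := add_le_add e6 e7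
        _ = (c3 / 16 * (n * σ)) ^ 2 := by ring
    calc 2 * σ * wx n h σ ≤ 2 * σ * (2 * Real.sqrt (n * (3 / 2 * σ * (h + 1) + 2))) :=
          mul_le_mul_of_nonneg_left e1 (by positivity)
      _ ≤ 2 * σ * (2 * (c3 / 16 * (n * σ))) :=
          mul_le_mul_of_nonneg_left (by linarith) (by positivity)
      _ = c3 / 4 * (n * σ ^ 2) := by ring
  have hp0 : 0 ≤ (1 - q) ^ (n / 10 - 2) := Real.rpow_nonneg (by linarith) _
  calc 12 * n * (n + 1) * Real.exp (2 * σ * wx n h σ) * Real.exp (σ / 2) * (1 - q) ^ (n / 10 - 2)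
      ≤ Real.exp (5 * Real.log n) * Real.exp (2 * σ * wx n h σ) * Real.exp (σ / 2) *
        Real.exp (-(c3 * n * σ ^ 2)) := by
        refine mul_le_mul (mul_le_mul_of_nonneg_right (mul_le_mul_of_nonneg_right
          (poly_le hn) (Real.exp_pos _).le) (Real.exp_pos _).le) hpow hp0 (by positivity)
    _ = Real.exp (5 * Real.log n + 2 * σ * wx n h σ + σ / 2 + -(c3 * n * σ ^ 2)) := by
        rw [Real.exp_add, Real.exp_add, Real.exp_add]
    _ ≤ 1 := by
        rw [Real.exp_le_one_iff]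
        have : 0 < c3 * (n * σ ^ 2) := by positivity
        nlinarith

end Pool.TT45
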