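import Pool.Agent.SC25.BadSmallS
import Pool.Agent.SC25.BadAllS
import Pool.Agent.TT45.Num2
import Pool.Agent.SC25.Conc
import Pool.Agent.SC25.Star
import Pool.Agent.SC25.FlipE2
import Pool.Agent.SC25.Det

set_option autoImplicit false

/-!
# TT45/Reg2: the main regime for heights up to `n / (K² log n)`
-/

namespace Pool.TT45

open Pool.HB45 Pool.HM63 Pool.PH43 Pool.SC25

/-- MAIN REGIME (as `SC25.main_regime`, other numbers). -/
theorem main_regime2 : ∃ K0 : ℝ, ∀ K ≥ K0, ∀ (N h j : ℕ) (Q : Rel (N + 1)) (κ lab : Fin (N + 1) → ℕ),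
    1 ≤ h → 3 ≤ N + 1 → Lev h Q κ → Nat' Q lab →
    K ^ 2 * (h : ℝ) * Real.log (N + 1) ≤ N + 1 → (N : ℝ) + 1 ≤ 5 * j * Real.log (N + 1) →
    (j : ℝ) ≤ ((N : ℝ) + 1) / 2 - K * (h + Real.sqrt ((N + 1) * Real.log (N + 1))) →
    (∀ i ≤ j, w Q lab i ≤ w Q lab j) → w Q lab j ≤ w Q lab (j + 1) := by
  classical
  obtain ⟨K1, hK1⟩ := exists_tilt2
  obtain ⟨K2, hK2⟩ := num1'
  obtain ⟨K3, hK3⟩ := num2'
  refine ⟨max 100 (max K1 (max K2 K3)), fun K hK N h j Q κ lab hh hN3 hκ hn hKh hNj hj hinc => ?_⟩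
  have g0 : (100 : ℝ) ≤ K := (le_max_left _ _).trans hK
  have g1 : K1 ≤ K := (le_max_left _ _).trans ((le_max_right _ _).trans hK)
  have g2 : K2 ≤ K := (le_max_left _ _).trans ((le_max_right _ _).trans ((le_max_right _ _).trans hK))
  have g3 : K3 ≤ K := (le_max_right _ _).trans ((le_max_right _ _).trans ((le_max_right _ _).trans hK))
  obtain ⟨n, hnd⟩ : ∃ n : ℝ, n = (N : ℝ) + 1 := ⟨_, rfl⟩
  rw [← hnd] at hKh hj hNj
  have hh' : (1 : ℝ) ≤ h := by exact_mod_cast hh
  have hn3 : (3 : ℝ) ≤ n := by rw [hnd]; exact_mod_cast hN3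
  have hnj : n ≤ 5 * j * Real.log n := hNj
  have hlog : 1 ≤ Real.log n := by
    rw [Real.le_log_iff_exp_le (by linarith)]
    have := Real.exp_one_lt_d9
    linarith
  have hbig : (10000 : ℝ) ≤ n := by
    have h1 : K ^ 2 * (h : ℝ) * 1 ≤ K ^ 2 * (h : ℝ) * Real.log n :=
      mul_le_mul_of_nonneg_left hlog (by positivity)
    have h2 : (100 : ℝ) ^ 2 ≤ K ^ 2 := pow_le_pow_left₀ (by norm_num) g0 2
    nlinarith [pow_pos (by linarith : (0 : ℝ) < K) 2]
  obtain ⟨σ, hσT⟩ := hK1 K g1 n h j hn3 hh' hKh hnj hj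
  have hσ : 0 < σ := by
    refine lt_of_lt_of_le ?_ hσT.lo
    have h1 : 0 < Real.log n / n := div_pos (by linarith) (by linarith)
    exact mul_pos (by linarith) (Real.sqrt_pos.2 h1)
  have hsc : 1 ≤ sc σ := one_le_sc σ
  obtain ⟨x, hxd⟩ : ∃ x, x = wx n h σ := ⟨_, rfl⟩
  have hrad : 0 ≤ n * (3 / 2 * σ * ((h : ℝ) + 1) + 2) := by positivity
  have hx0 : 0 ≤ x := by
    rw [hxd]
    unfold wx
    positivity
  have hx : x ^ 2 * sc σ ^ 2 = 4 * (N + 1) * (3 / 2 * σ * (h + 1) + 2) := by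
    rw [hxd]
    unfold wx
    rw [div_pow, mul_pow, Real.sq_sqrt hrad, div_mul_cancel₀ _ (by positivity), ← hnd]
    ring
  have hx' : x * sc σ ^ 2 ≤ (N + 1) * σ := by
    rw [hxd, ← hnd]
    exact hσT.le
  have hjx : (j : ℝ) = (N + 1) * mn σ + x := by
    rw [hxd, ← hnd]
    exact hσT.eq
  have hlw := lower_w hh hκ hn σ x hσ hx0 hx hx' hjx hinc
  -- the windows
  obtain ⟨m, hmd⟩ : ∃ m, m = (N + 1) / 5 := ⟨_, rfl⟩
  have hm : m * (3 + 2) ≤ N + 1 := by omega
  obtain ⟨b, hbd⟩ : ∃ b, b = (N + 1) / 10 + 1 := ⟨_, rfl⟩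
  have hNbig : 10000 ≤ N + 1 := by
    have h1 : (10000 : ℝ) ≤ ((N + 1 : ℕ) : ℝ) := by
      push_cast
      rw [← hnd]
      exact hbig
    exact_mod_cast h1
  have hb10 : n / 10 ≤ b := by
    have h1 : N + 1 ≤ 10 * b := by omega
    have h2 : (N : ℝ) + 1 ≤ 10 * b := by exact_mod_cast h1
    rw [hnd]
    linarith
  set r := Real.exp (-σ) with hr
  have hr0 : 0 < r := Real.exp_pos _
  have hr1 : r ≤ 1 := by
    rw [hr, Real.exp_le_one_iff]
    linarith
  set W := Wr Q lab r with hW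
  have hsand := sand_lower hn σ hσ
  rw [← hr, ← hW] at hsand
  set E := Real.exp ((150 + 3 * σ) * ((h : ℝ) + 1) + 1 + n / 900 - 7 / 500 * n) with hE
  have hE' : Real.exp ((150 + 3 * σ) * ((h : ℝ) + 1) + 1 + (N + 1) / 900 - 7 / 50 * b) ≤ E := by
    rw [hE, Real.exp_le_exp, ← hnd]
    linarith
  have hps0 : 0 ≤ ps σ := (ps_pos hσ).le
  have hbase0 : 0 ≤ ((LE Q).card : ℝ) * ps σ ^ (N + 1) := by positivity
  have hW0 : 0 ≤ W := hbase0.trans hsand
  have hPE : ((LE Q).card : ℝ) * ps σ ^ (N + 1) *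
      Real.exp ((150 + 3 * σ) * (h + 1) + 1 + (N + 1) / 900 - 7 / 50 * b) ≤ W * E :=
    mul_le_mul hsand hE' (Real.exp_pos _).le hW0
  have hn1 := hK2 K g2 n h j σ hn3 hh' hKh hσT
  rw [← hxd, ← hE] at hn1
  set A := Real.exp (2 * σ * x) with hA
  have hA0 : 0 < A := Real.exp_pos _
  set S := Real.exp (σ / 2) with hS
  have hS1 : 1 ≤ S := by
    rw [hS]
    exact Real.one_le_exp (by linarith)
  set Bj := ((LE Q).filter fun g => des lab g = j ∧
      (upT Q lab (Tw hm) g).card ≤ (dnT Q lab (Tw hm) g).card + 1).card with hBj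
  -- the main estimate
  have hmain : 12 * n * (n + 1) * A * ((Bj : ℝ) * r ^ j) ≤ 2 * W := by
    by_cases h21 : 21 * j ≤ N + 1
    · have h1 := bad_small (b := b) (j := j) hh hm hκ hn σ hσ (by omega)
      rw [← hr, ← hBj] at h1
      have h2 := h1.trans hPE
      have h3 : 12 * n * (n + 1) * A * ((Bj : ℝ) * r ^ j) ≤ 12 * n * (n + 1) * A * (W * E) :=
        mul_le_mul_of_nonneg_left h2 (by positivity)
      have h4 : 12 * n * (n + 1) * A * E ≤ 12 * n * (n + 1) * A * S * E := by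
        have h5 : 12 * n * (n + 1) * A * 1 ≤ 12 * n * (n + 1) * A * S :=
          mul_le_mul_of_nonneg_left hS1 (by positivity)
        rw [mul_one] at h5
        exact mul_le_mul_of_nonneg_right h5 (Real.exp_pos _).le
      have h6 : 12 * n * (n + 1) * A * (W * E) = W * (12 * n * (n + 1) * A * E) := by ring
      have h7 : W * (12 * n * (n + 1) * A * E) ≤ W * 1 :=
        mul_le_mul_of_nonneg_left (h4.trans hn1) hW0
      linarith
    · have h21' : n / 21 ≤ j := by
        have h1 : N + 1 ≤ 21 * j := by omega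
        have h2 : (N : ℝ) + 1 ≤ 21 * j := by exact_mod_cast h1
        rw [hnd]
        linarith
      have hn2 := hK3 K g3 n h j σ hn3 hh' hKh hσT h21'
      rw [← hxd, ← hr] at hn2
      have hmb : b ≤ m := by omega
      have h1 := bad_all (b := b) (j := j) hh hm hκ hn σ hσ hmb
      rw [← hr, ← hBj, ← hW, ← hS] at h1
      set η := 1 - (1 - 2 * Real.sqrt r / (1 + r)) * r ^ 2 / 24 with hη
      -- `0 < η ≤ 1`
      have hsq : 2 * Real.sqrt r ≤ 1 + r := by
        have h2 := Real.sq_sqrt hr0.le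
        have h3 := two_mul_le_add_sq 1 (Real.sqrt r)
        rw [h2] at h3
        linarith
      have hq1 : 2 * Real.sqrt r / (1 + r) ≤ 1 := by
        rw [div_le_one (by linarith)]
        exact hsq
      have hq0 : 0 ≤ 2 * Real.sqrt r / (1 + r) := by positivity
      have hr2 : r ^ 2 ≤ 1 := pow_le_one₀ hr0.le hr1
      have hη1 : η ≤ 1 := by
        have : 0 ≤ (1 - 2 * Real.sqrt r / (1 + r)) * r ^ 2 / 24 := by
          have : 0 ≤ 1 - 2 * Real.sqrt r / (1 + r) := by linarith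
          positivity
        rw [hη]
        linarith
      have hη0 : 0 < η := by
        have h2 : (1 - 2 * Real.sqrt r / (1 + r)) * r ^ 2 ≤ 1 * 1 :=
          mul_le_mul (by linarith) hr2 (by positivity) (by norm_num)
        rw [hη]
        linarith
      have hpow : η ^ (m - b) ≤ η ^ (n / 10 - 2) := by
        rw [← Real.rpow_natCast]
        refine Real.rpow_le_rpow_of_exponent_ge hη0 hη1 ?_
        have h4 : N + 1 ≤ 10 * (m - b) + 20 := by omega
        have h5 : (N : ℝ) + 1 ≤ 10 * ((m - b : ℕ) : ℝ) + 20 := by exact_mod_cast h4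
        rw [hnd]
        linarith
      have h2 : (Bj : ℝ) * r ^ j ≤ S * (W * η ^ (n / 10 - 2) + W * E) := by
        refine h1.trans (mul_le_mul_of_nonneg_left (add_le_add ?_ hPE) (by positivity))
        exact mul_le_mul_of_nonneg_left hpow hW0
      have h3 : 12 * n * (n + 1) * A * ((Bj : ℝ) * r ^ j) ≤
          12 * n * (n + 1) * A * (S * (W * η ^ (n / 10 - 2) + W * E)) :=
        mul_le_mul_of_nonneg_left h2 (by positivity)
      have h4 : 12 * n * (n + 1) * A * (S * (W * η ^ (n / 10 - 2) + W * E)) =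
          W * (12 * n * (n + 1) * A * S * η ^ (n / 10 - 2)) + W * (12 * n * (n + 1) * A * S * E) := by
        ring
      have h5 : W * (12 * n * (n + 1) * A * S * η ^ (n / 10 - 2)) ≤ W * 1 :=
        mul_le_mul_of_nonneg_left hn2 hW0
      have h6 : W * (12 * n * (n + 1) * A * S * E) ≤ W * 1 := mul_le_mul_of_nonneg_left hn1 hW0
      linarith
  -- conclusion
  have hAinv : W ≤ 6 * n * (w Q lab j * r ^ j) * A := by
    have h1 : Real.exp (-(2 * σ * x)) * A = 1 := by
      rw [hA, ← Real.exp_add]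
      simp
    calc W = W * Real.exp (-(2 * σ * x)) * A := by rw [mul_assoc, h1, mul_one]
      _ ≤ 6 * (N + 1) * (w Q lab j * r ^ j) * A := mul_le_mul_of_nonneg_right hlw hA0.le
      _ = _ := by rw [hnd]
  have hfin : ((N : ℝ) + 2) * Bj ≤ w Q lab j := by
    have h1 : 12 * n * (n + 1) * A * ((Bj : ℝ) * r ^ j) ≤ 12 * n * (w Q lab j * r ^ j) * A := by
      linarith
    have h2 : 0 < 12 * n * A * r ^ j := by positivity
    refine le_of_mul_le_mul_right ?_ h2
    have h3 : ((N : ℝ) + 2) = n + 1 := by rw [hnd]; ring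
    rw [h3]
    linarith
  exact step hn (sep_Tw hm) j (by
    have h1 : ((N + 2 : ℕ) : ℝ) * Bj ≤ w Q lab j := by
      push_cast
      exact hfin
    exact_mod_cast h1)

end Pool.TT45
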